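import Mathlib

/-! # The truncated pentagonal series times `(q, q⁶, q⁷; q⁷)_∞`: the case `k = 1` -/

set_option autoImplicit false

namespace Pool.Agent.Results.MP_f836a2_nt.FailsForKEqualsOne

open Finset Filter

open scoped PowerSeries.WithPiTopology

/-- the infinite product `(q^a; q^b)_∞ = ∏_{i ≥ 0} (1 - q^{a + b i})` -/
noncomputable def poch (a b : ℕ) : PowerSeries ℤ := ∏' i : ℕ, (1 - PowerSeries.X ^ (a + b * i))

/-- the truncated pentagonal sum `P_k(q) = ∑_{i = 1 - k}^{k} (-1)^i q^{i (3 i - 1) / 2}` -/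
noncomputable def P (k : ℕ) : PowerSeries ℤ :=
  ∑ i ∈ Icc (1 - (k : ℤ)) k, (i.negOnePow : ℤ) • (PowerSeries.X : PowerSeries ℤ) ^ (pentagonal i)

/-- `F_k(q) = (-1)^{k-1} (P_k(q) / (q;q)_∞ - 1) (q, q⁶, q⁷; q⁷)_∞` -/
noncomputable def F (k : ℕ) : PowerSeries ℤ :=
  (-1) ^ (k - 1) * (P k * PowerSeries.invOfUnit (poch 1 1) 1 - 1) * (poch 1 7 * poch 6 7 * poch 7 7)

/-- `c_k(n)` -/
noncomputable def c (k n : ℕ) : ℤ := PowerSeries.coeff n (F k)

/-- multiplying by factors `1 - q^j` with `j > n` does not change the coefficients up to `n` -/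
theorem coeff_mul_one_sub (n j : ℕ) (hj : n < j) (G : PowerSeries ℤ) (m : ℕ) (hm : m ≤ n) :
    PowerSeries.coeff m ((1 - PowerSeries.X ^ j) * G) = PowerSeries.coeff m G := by
  rw [sub_mul, one_mul, map_sub, PowerSeries.coeff_X_pow_mul', if_neg (by omega), sub_zero]

theorem coeff_prod_mul (n : ℕ) (s : Finset ℕ) (f : ℕ → ℕ) (hs : ∀ i ∈ s, n < f i)
    (G : PowerSeries ℤ) (m : ℕ) (hm : m ≤ n) :
    PowerSeries.coeff m ((∏ i ∈ s, (1 - PowerSeries.X ^ (f i))) * G) = PowerSeries.coeff m G := by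
  induction s using Finset.induction_on with
  | empty => simp
  | insert a s ha ih =>
    rw [Finset.prod_insert ha, mul_assoc, coeff_mul_one_sub n (f a) (hs a (mem_insert_self a s)) _ m hm]
    exact ih fun i hi => hs i (mem_insert_of_mem hi)

theorem hasProd_poch (a b : ℕ) (hb : 1 ≤ b) :
    HasProd (fun i : ℕ => (1 - PowerSeries.X ^ (a + b * i) : PowerSeries ℤ)) (poch a b) := by
  have h : Multipliable (fun i : ℕ => (1 + (-(PowerSeries.X ^ (a + b * i))) : PowerSeries ℤ)) := by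
    apply PowerSeries.WithPiTopology.multipliable_one_add_of_tendsto_order_atTop_nhds_top
    refine ENat.tendsto_nhds_top_iff_natCast_lt.mpr fun n ↦ eventually_atTop.mpr ⟨n + 1, ?_⟩
    intro m hm
    rw [PowerSeries.order_neg, PowerSeries.order_X_pow]
    have : m ≤ b * m := Nat.le_mul_of_pos_left m (by omega)
    exact_mod_cast (by omega : n < a + b * m)
  have h2 : (fun i : ℕ => (1 - PowerSeries.X ^ (a + b * i) : PowerSeries ℤ)) =
      (fun i : ℕ => (1 + (-(PowerSeries.X ^ (a + b * i))) : PowerSeries ℤ)) := by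
    funext i; rw [sub_eq_add_neg]
  rw [← h2] at h
  exact h.hasProd

/-- the coefficients up to `n` are those of a finite product -/
theorem coeff_poch (a b : ℕ) (hb : 1 ≤ b) (N m : ℕ) (hN : m < a + b * N) :
    PowerSeries.coeff m (poch a b) =
      PowerSeries.coeff m (∏ i ∈ range N, (1 - PowerSeries.X ^ (a + b * i) : PowerSeries ℤ)) := by
  have h := hasProd_poch a b hb
  rw [HasProd, PowerSeries.WithPiTopology.tendsto_iff_coeff_tendsto] at h
  have h1 := h m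
  have h2 : Tendsto (fun s : Finset ℕ =>
      PowerSeries.coeff m (∏ i ∈ s, (1 - PowerSeries.X ^ (a + b * i) : PowerSeries ℤ))) atTop
      (nhds (PowerSeries.coeff m (∏ i ∈ range N, (1 - PowerSeries.X ^ (a + b * i) : PowerSeries ℤ)))) := by
    apply tendsto_nhds_of_eventually_eq
    filter_upwards [eventually_ge_atTop (range N)] with s hs
    rw [← Finset.prod_sdiff hs]
    apply coeff_prod_mul m _ _ _ _ m le_rfl
    intro i hi
    rw [Finset.mem_sdiff, mem_range, not_lt] at hi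
    have := Nat.mul_le_mul_left b hi.2
    omega
  exact tendsto_nhds_unique h1 h2

theorem antidiag (f : ℕ × ℕ → ℤ) :
    (∑ p ∈ antidiagonal 0, f p = f (0, 0)) ∧
    (∑ p ∈ antidiagonal 1, f p = f (0, 1) + f (1, 0)) ∧
    (∑ p ∈ antidiagonal 2, f p = f (0, 2) + f (1, 1) + f (2, 0)) ∧
    (∑ p ∈ antidiagonal 3, f p = f (0, 3) + f (1, 2) + f (2, 1) + f (3, 0)) ∧
    (∑ p ∈ antidiagonal 4, f p = f (0, 4) + f (1, 3) + f (2, 2) + f (3, 1) + f (4, 0)) ∧
    (∑ p ∈ antidiagonal 5, f p =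
      f (0, 5) + f (1, 4) + f (2, 3) + f (3, 2) + f (4, 1) + f (5, 0)) := by
  refine ⟨?_, ?_, ?_, ?_, ?_, ?_⟩ <;>
  · rw [Finset.Nat.sum_antidiagonal_eq_sum_range_succ_mk]
    simp [Finset.sum_range_succ]

/-- coefficients of `(q;q)_∞` -/
theorem coeff_U : PowerSeries.coeff 0 (poch 1 1) = 1 ∧ PowerSeries.coeff 1 (poch 1 1) = -1 ∧
    PowerSeries.coeff 2 (poch 1 1) = -1 ∧ PowerSeries.coeff 3 (poch 1 1) = 0 ∧
    PowerSeries.coeff 4 (poch 1 1) = 0 ∧ PowerSeries.coeff 5 (poch 1 1) = 1 := by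
  have h : (∏ i ∈ range 5, (1 - PowerSeries.X ^ (1 + 1 * i) : PowerSeries ℤ)) =
      1 - PowerSeries.X ^ 1 - PowerSeries.X ^ 2 + PowerSeries.X ^ 5 + PowerSeries.X ^ 6 +
      PowerSeries.X ^ 7 - PowerSeries.X ^ 8 - PowerSeries.X ^ 9 - PowerSeries.X ^ 10 +
      PowerSeries.X ^ 13 + PowerSeries.X ^ 14 - PowerSeries.X ^ 15 := by
    simp only [Finset.prod_range_succ, Finset.prod_range_zero]
    ring
  have hc : ∀ m, m < 1 + 1 * 5 → PowerSeries.coeff m (poch 1 1) = PowerSeries.coeff m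
      (1 - PowerSeries.X ^ 1 - PowerSeries.X ^ 2 + PowerSeries.X ^ 5 + PowerSeries.X ^ 6 +
      PowerSeries.X ^ 7 - PowerSeries.X ^ 8 - PowerSeries.X ^ 9 - PowerSeries.X ^ 10 +
      PowerSeries.X ^ 13 + PowerSeries.X ^ 14 - PowerSeries.X ^ 15 : PowerSeries ℤ) := by
    intro m hm
    rw [← h]
    exact coeff_poch 1 1 le_rfl 5 m hm
  refine ⟨?_, ?_, ?_, ?_, ?_, ?_⟩ <;>
  · rw [hc _ (by norm_num)]
    simp only [map_add, map_sub, PowerSeries.coeff_X_pow, PowerSeries.coeff_one]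
    norm_num

theorem coeff_A : ∀ m, m < 8 → PowerSeries.coeff m (poch 1 7) =
    PowerSeries.coeff m (1 - PowerSeries.X ^ 1 : PowerSeries ℤ) := by
  intro m hm
  rw [coeff_poch 1 7 (by norm_num) 1 m (by omega)]
  simp

theorem coeff_B : ∀ m, m < 6 → PowerSeries.coeff m (poch 6 7) =
    PowerSeries.coeff m (1 : PowerSeries ℤ) := by
  intro m hm
  rw [coeff_poch 6 7 (by norm_num) 0 m (by omega)]
  simp

theorem coeff_C : ∀ m, m < 7 → PowerSeries.coeff m (poch 7 7) =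
    PowerSeries.coeff m (1 : PowerSeries ℤ) := by
  intro m hm
  rw [coeff_poch 7 7 (by norm_num) 0 m (by omega)]
  simp

/-- replacing factors by others with the same low coefficients -/
theorem coeff_mul_congr (n : ℕ) (G H G' H' : PowerSeries ℤ)
    (hG : ∀ m, m ≤ n → PowerSeries.coeff m G = PowerSeries.coeff m G')
    (hH : ∀ m, m ≤ n → PowerSeries.coeff m H = PowerSeries.coeff m H') :
    ∀ m, m ≤ n → PowerSeries.coeff m (G * H) = PowerSeries.coeff m (G' * H') := by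
  intro m hm
  rw [PowerSeries.coeff_mul, PowerSeries.coeff_mul]
  refine Finset.sum_congr rfl fun p hp => ?_
  rw [Finset.HasAntidiagonal.mem_antidiagonal] at hp
  rw [hG p.1 (by omega), hH p.2 (by omega)]

theorem P_one : P 1 = 1 - PowerSeries.X ^ 1 := by
  unfold P
  have h : Icc (1 - ((1 : ℕ) : ℤ)) ((1 : ℕ) : ℤ) = {0, 1} := by decide
  rw [h, Finset.sum_insert (by decide), Finset.sum_singleton]
  have h0 : pentagonal 0 = 0 := by decide
  have h1 : pentagonal 1 = 1 := by decide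
  rw [h0, h1]
  simp [Int.negOnePow]
  ring

/-- the coefficients of `1 / (q;q)_∞` -/
theorem coeff_V : ∃ V : PowerSeries ℤ, V = PowerSeries.invOfUnit (poch 1 1) 1 ∧
    PowerSeries.coeff 0 V = 1 ∧ PowerSeries.coeff 1 V = 1 ∧ PowerSeries.coeff 2 V = 2 ∧
    PowerSeries.coeff 3 V = 3 ∧ PowerSeries.coeff 4 V = 5 ∧ PowerSeries.coeff 5 V = 7 := by
  obtain ⟨u0, u1, u2, u3, u4, u5⟩ := coeff_U
  refine ⟨_, rfl, ?_⟩
  have hUV : poch 1 1 * PowerSeries.invOfUnit (poch 1 1) 1 = 1 := by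
    apply PowerSeries.mul_invOfUnit
    rw [← PowerSeries.coeff_zero_eq_constantCoeff_apply, u0]
    rfl
  set V := PowerSeries.invOfUnit (poch 1 1) 1 with hV
  have hm : ∀ m, ∑ p ∈ antidiagonal m, PowerSeries.coeff p.1 (poch 1 1) * PowerSeries.coeff p.2 V =
      if m = 0 then 1 else 0 := by
    intro m
    rw [← PowerSeries.coeff_mul, hUV, PowerSeries.coeff_one]
  obtain ⟨a0, a1, a2, a3, a4, a5⟩ := antidiag
    (fun p => PowerSeries.coeff p.1 (poch 1 1) * PowerSeries.coeff p.2 V)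
  dsimp only at a0 a1 a2 a3 a4 a5
  have e0 := hm 0
  have e1 := hm 1
  have e2 := hm 2
  have e3 := hm 3
  have e4 := hm 4
  have e5 := hm 5
  rw [a0, u0] at e0
  rw [a1, u0, u1] at e1
  rw [a2, u0, u1, u2] at e2
  rw [a3, u0, u1, u2, u3] at e3
  rw [a4, u0, u1, u2, u3, u4] at e4
  rw [a5, u0, u1, u2, u3, u4, u5] at e5
  rw [if_pos rfl] at e0
  rw [if_neg (by norm_num)] at e1 e2 e3 e4 e5
  simp only [one_mul, zero_mul, neg_one_mul] at e0 e1 e2 e3 e4 e5
  refine ⟨by omega, by omega, by omega, by omega, by omega, by omega⟩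

theorem c_one_five : c 1 5 = 0 := by
  obtain ⟨V, hV, v0, v1, v2, v3, v4, v5⟩ := coeff_V
  unfold c F
  rw [← hV, P_one]
  have hT : ∀ m, m ≤ 5 → PowerSeries.coeff m (poch 1 7 * poch 6 7 * poch 7 7) =
      PowerSeries.coeff m ((1 - PowerSeries.X ^ 1) * 1 * 1 : PowerSeries ℤ) :=
    coeff_mul_congr 5 _ _ _ _ (coeff_mul_congr 5 _ _ _ _ (fun m hm => coeff_A m (by omega))
      (fun m hm => coeff_B m (by omega))) (fun m hm => coeff_C m (by omega))
  rw [coeff_mul_congr 5 _ _ ((-1) ^ (1 - 1) * ((1 - PowerSeries.X ^ 1) * V - 1)) _ (fun _ _ => rfl) hT 5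
    le_rfl]
  have h1 : ((-1) ^ (1 - 1) * ((1 - PowerSeries.X ^ 1) * V - 1)) *
      ((1 - PowerSeries.X ^ 1) * 1 * 1 : PowerSeries ℤ) =
      V - 2 * (PowerSeries.X ^ 1 * V) + PowerSeries.X ^ 2 * V - 1 + PowerSeries.X ^ 1 := by
    simp only [Nat.sub_self, pow_zero]
    ring
  rw [h1]
  have h2 : (2 : PowerSeries ℤ) = PowerSeries.C 2 := by simp
  rw [h2]
  simp only [map_add, map_sub, PowerSeries.coeff_C_mul, PowerSeries.coeff_X_pow_mul',
    PowerSeries.coeff_X_pow, PowerSeries.coeff_one]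
  norm_num [v3, v4, v5]

/-- `c_1(5) = 0`, although `5 ≥ N_1 + 2 = 4`: the assertion (`c_k(n) = 0` for `n < N_k` and for
`n = N_k + 1`, `c_k(n) > 0` for `n = N_k` and for `n ≥ N_k + 2`) fails for `k = 1`. -/
theorem result : c 1 5 = 0 ∧
    ¬ (∀ k : ℕ, 1 ≤ k →
      ((∀ n : ℕ, n < k * (3 * k + 1) / 2 ∨ n = k * (3 * k + 1) / 2 + 1 → c k n = 0) ∧
      (∀ n : ℕ, n = k * (3 * k + 1) / 2 ∨ k * (3 * k + 1) / 2 + 2 ≤ n → 0 < c k n))) := by
  refine ⟨c_one_five, fun h => ?_⟩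
  have h1 := (h 1 le_rfl).2 5 (Or.inr (by norm_num))
  rw [c_one_five] at h1
  exact lt_irrefl _ h1

end Pool.Agent.Results.MP_f836a2_nt.FailsForKEqualsOne
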